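import Pool.Agent.V7H44.KT.Gen

/-!
# MP_f8720a_ag: Kato's log `ℓ`-adic monodromy-weight conjecture in all degrees
-/

set_option autoImplicit false

open Module Polynomial

universe u v

namespace Pool.Agent.Results.MP_f8720a_ag.AllDegreesH44

open Pool.Agent.Y143 Pool.Agent.Helper60K9.KL Pool.Agent.Helper8K9.KD Pool.Agent.Helper8K9.AV
  Pool.Agent.Helper11K9.Dens Pool.Agent.V7H44.KT

/-- **Kato's log `ℓ`-adic monodromy-weight conjecture in all degrees.**

`X` is the Kummer log etale cohomology `H^m`, `m ≥ 0`, of a projective SNCL scheme of relative
dimension `n` over a log point whose residue field is finite with `q` elements (with coefficients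
in a field `Ω` containing `ℚ_ℓ`): the cohomology of the `Y^(a+1)` (disjoint union of the
intersections of `a + 1` different components, smooth projective of dimension `n - a`), the
restriction and Gysin maps, Poincare duality, the hard Lefschetz theorem and the Weil conjectures for
the `Y^(a+1)`, and the weight spectral sequence, which degenerates at `E_2` and gives the
filtration `P` and the action of `N`. The hard Lefschetz theorem for the `H^m` is *not* assumed. `A`
consists of the classes of components and divisors, with their known positivity properties.

(1) For all `a` and `k`, the map `N ^ (a + 1)` from `gr^P_(m + a + 1) H^m` to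
`gr^P_(m - a - 1) H^m`, `m = a + 1 + k`, is injective if and only if `InjCrit X a k` holds, and it is
surjective if and only if `SurjCrit X a k` holds: two conditions on the classes of degree `k` on
`Y^(a+1)` and `Y^(a+2)`.

(2) The conjecture for one `H^m`, `m ≤ n`, is equivalent to these conditions with
`a + 1 + k = m` and `k ≥ 2` (injectivity), and `k ≥ 1` and `m < n` (surjectivity); the conjecture for
all the `H^m` is equivalent to all these conditions with `a + 1 + k ≤ n`, `k ≥ 2`, and
`a + 2 + k ≤ n`, `k ≥ 1` (`AllCrit`). So there are `(n - 1) (n - 2)` conditions, none for surfaces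
and two for threefolds.

(3) One prime: they hold, and so the conjecture is true for all `H^m`, if in each of these cases
Frobenius (or an operator in the algebra generated by Frobenius and the correspondences, with the
complex conjugate as its adjoint) has simple spectrum on a space containing the restrictions from
`H^k(Y^(a+1))` to `H^k(Y^(a+2))`, or the primitive Gysin images of `H^k(Y^(a+2))` in
`H^(k+2)(Y^(a+1))`, and if the eigenvalues are conjugate to their complex conjugates over `Ω`. For
`k = 2` the first condition may be replaced by: `H^2(Y^(a+1))` is spanned by divisor classes and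
transcendental classes with simple spectrum, or nondegenerate restriction (for instance by divisor
classes); for `k = 1` the second one by `NoObstruction` (for example `H^3(Y^(a+1))` comes from
curves).

(4) Many primes: if this is so for all primes `ℓ ≠ p`, with characteristic polynomials independent of
`ℓ`, then the conjecture is true for all the `H^m` at once for a set of primes `ℓ` of lower
density at least `2 ^ (-r)`, where `r` is the number of the pairs of complex conjugate non-real
roots of any finite family of polynomials `R j` such that all the eigenvalues are polynomials, with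
rational coefficients, in single roots of the `R j` (so the Frobenius eigenvalues on the different
strata and degrees which generate the same fields are counted only once). -/
theorem result :
    (∀ {Ω : Type u} [Field Ω] [CharZero Ω] {Γ : Type} {n q : ℕ}
      (X : SemistableModel.{u, v} Ω Γ n q) (A : DivisorClasses X.toSpecialFibre),
      (∀ a k, (GrInj X (a + 1 + k) (a + 1) ↔ InjCrit X.toSpecialFibre a k) ∧
        (GrSurj X (a + 1 + k) (a + 1) ↔ SurjCrit X.toSpecialFibre a k)) ∧
      (∀ m ≤ n, KatoAt X m ↔ CritAt X.toSpecialFibre m) ∧
      ((∀ m, KatoAt X m) ↔ AllCrit X.toSpecialFibre) ∧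
      ∀ P Q P' Q' : ℕ → ℕ → ℚ[X], AllGood A P Q P' Q' →
        (∀ a k, Squarefree (P a k) ∧ LocallyConjugate Ω (P a k) (Q a k)) →
        (∀ a k, Squarefree (P' a k) ∧ LocallyConjugate Ω (P' a k) (Q' a k)) →
        ∀ m, KatoAt X m) ∧
    ∀ {n q p : ℕ} (F : AdicFamily.{v} n q p) (P Q P' Q' : ℕ → ℕ → ℚ[X]) {J : Type} [Fintype J]
      (R S : J → ℚ[X]), (∀ j, IsConjugationPair (R j) (S j)) → AllGenerated R P Q P' Q' →
      AdicAllGood F P Q P' Q' → HasLowerDensity F.katoAll ((1 / 2 : ℝ) ^ pairNumber R) := by
  refine ⟨fun {Ω} _ _ {Γ n q} X A => ⟨fun a k => ⟨grInj_iff_crit X a k, grSurj_iff_crit X a k⟩,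
    fun m hm => katoAt_iff_crit A hm, kato_iff_crit A, fun P Q P' Q' h h1 h2 => ?_⟩,
    fun {n q p} F P Q P' Q' {J} _ R S hRS hgen h => many_all F hRS hgen h⟩
  exact (kato_iff_crit A).2 (allCrit_of_good (fun a k => (h1 a k).1) (fun a k => (h1 a k).2)
    (fun a k => (h2 a k).1) (fun a k => (h2 a k).2) h)

end Pool.Agent.Results.MP_f8720a_ag.AllDegreesH44
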