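import Mathlib
import Pool.Agent.V7H36.KL.Log3

/-!
# MP_f8720a_ag: Kato's log `ℓ`-adic monodromy-weight conjecture for threefolds whose second and third
cohomology have eigenvalues divisible by `q`

Let `X` be a projective SNCL scheme of relative dimension `n` over a log point whose residue field is
finite with `q` elements. It need not be the special fibre of a semistable degeneration. Let `Y^(a+1)`
be the disjoint union of the intersections of `a + 1` different components of `X`.

1. If all the eigenvalues of the Frobenius on the log cohomology `H^2` are divisible by `q` (the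
quotients `α / q` are algebraic integers), then the conjecture holds for `H^2` and for `H^(2 n - 2)`,
for all `n ≥ 2`. This condition is satisfied, for example, if `H^2` is spanned by classes of divisors.

2. Let `n = 3`. If the eigenvalues on `H^2` and on `H^3` are divisible by `q`, and if the components
of `X` satisfy the Tate conjecture for divisors (for example if they are rational, or uniruled, or
abelian threefolds, or products of curves), then the conjecture holds for all `H^m`. Moreover, for
every number `α` which is not the product of `q` and a root of unity the restriction is a bijection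
from the part of eigenvalue `α` of `H^2(Y^(1))` to that of `H^2(Y^(2))`.

3. In part 2 the condition on `H^3` can be replaced by the condition that the slopes of the Frobenius
on the log crystalline cohomology `H^3` are at least one, which holds if `H^3(X, O_X) = 0`. (The theory
`X'` is the log crystalline cohomology, with coefficients in an algebraically closed field `Ω'`, and `R`
is the valuation ring of `Ω'`; the condition `SameFrobenius` is the theorem of Katz and Messing.)

So this is the class of the (log) threefolds without differential forms of degree two and three; the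
strata can have arbitrary transcendental cohomology, for instance the double surfaces can be K3
surfaces or surfaces of general type.

The proof. A number of weight two which is divisible by `q` is the product of `q` and a root of unity
(Kronecker). So the parts of `H^2(Y^(1))` and `H^2(Y^(2))` for the other eigenvalues `α` do not
contribute to `H^2` and to `H^3`, because the weight spectral sequence degenerates at `E_2`: the
restriction is a bijection between them, and by duality no class of this kind with Gysin image zero
is left. On the remaining part the classes of `H^2(Y^(1))` are combinations of divisor classes, and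
the Hodge index theorem applies. There are no eigenvalues of weight one divisible by `q` at all, so
`gr_1 H^2 = 0`, which gives the conjecture for `H^2`.

The criteria for the conjecture in terms of the strata are from the starting files (in the case
`n = 3`) and from `Pool.Agent.V7H44.KT` (helper44); parts of the proof are adapted from
`Pool.Agent.X302.MW.Three`, on degenerations of threefolds without differential forms, where the hard
Lefschetz theorem for the generic fibre is used; here it is not available.
-/

set_option autoImplicit false

namespace Pool.Agent.Results.MP_f8720a_ag.DivisibleEigenvaluesH36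

open Pool.Agent.Y143 Pool.Agent.X302.MW Pool.Agent.Helper60K9.KL

universe u v

/-- All the eigenvalues of the Frobenius on `H^k` are divisible by `q`: the numbers `α / q` are
algebraic integers. -/
def IsDivisible {Ω : Type u} [Field Ω] [CharZero Ω] {Γ : Type} {n q : ℕ}
    (X : SemistableModel.{u, v} Ω Γ n q) (k : ℕ) : Prop :=
  ∀ α : Ω, IsEigenvalueOn X k α → IsIntegral ℤ (α / q)

/-- For every `α` which is not the product of `q` and a root of unity, the restriction is a bijection
from the part of eigenvalue `α` of `H^2(Y^(1))` to that of `H^2(Y^(2))`. -/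
def RestrictionBijective {Ω : Type u} [Field Ω] [CharZero Ω] {Γ : Type} {n q : ℕ}
    (X : SpecialFibre.{u, v} Ω Γ n q) : Prop :=
  ∀ α : Ω, ¬ IsTateNumber q α → ∀ z ∈ frobPart X 1 2 α,
    ∃! y, y ∈ frobPart X 0 2 α ∧ X.res 0 y = z

theorem result :
    -- the second cohomology
    (∀ {Ω : Type u} [Field Ω] [CharZero Ω] [IsAlgClosed Ω] {Γ : Type} {n q : ℕ}
      (X : SemistableModel.{u, v} Ω Γ n q) (_A : DivisorClasses X.toSpecialFibre),
      2 ≤ n → 2 ≤ q → IsDivisible X 2 → KatoAt X 2 ∧ KatoAt X (2 * n - 2)) ∧
    -- threefolds
    (∀ {Ω : Type u} [Field Ω] [CharZero Ω] [IsAlgClosed Ω] {Γ : Type} {q : ℕ}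
      (X : SemistableModel.{u, v} Ω Γ 3 q) (A : DivisorClasses X.toSpecialFibre),
      2 ≤ q → HasIntegralFrobenius X.toSpecialFibre → A.TateConj 0 → IsDivisible X 2 →
        IsDivisible X 3 → (∀ m, KatoAt X m) ∧ RestrictionBijective X.toSpecialFibre) ∧
    -- threefolds, with the slopes of the log crystalline cohomology
    (∀ {Ω : Type u} [Field Ω] [CharZero Ω] [IsAlgClosed Ω] {Γ : Type} {Ω' : Type u} [Field Ω']
      [CharZero Ω'] [IsAlgClosed Ω'] {Γ' : Type} {q : ℕ} (X : SemistableModel.{u, v} Ω Γ 3 q)
      (A : DivisorClasses X.toSpecialFibre) (X' : SemistableModel.{u, v} Ω' Γ' 3 q),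
      IsPrimePow q → HasIntegralFrobenius X.toSpecialFibre →
      HasIntegralFrobenius X'.toSpecialFibre → A.TateConj 0 →
      SameFrobenius X.toSpecialFibre X'.toSpecialFibre 0 2 →
      SameFrobenius X.toSpecialFibre X'.toSpecialFibre 1 2 →
      (∀ α, IsEigenvalueOn X 2 α → IsTateNumber q α) →
      (∃ R : ValuationSubring Ω', ((q : Ω'))⁻¹ ∉ R ∧ ∀ α, IsEigenvalueOn X' 3 α → α / q ∈ R) →
        (∀ m, KatoAt X m) ∧ RestrictionBijective X.toSpecialFibre) := by
  refine ⟨fun X A hn hq h2 => ?_, fun X A hq hI hT h2 h3 => ?_,
    fun X A X' hq hI hI' hT hC0 hC1 h2 ⟨R, hR, h3⟩ => ?_⟩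
  · have h := Pool.Agent.V7H36.KL.kato_two A hn hq h2
    exact ⟨h, (katoAt_dual X (2 * _ - 2) 2 (by omega)).2 h⟩
  · have hs := Pool.Agent.V7H36.KL.surj_nonTate X rfl hI h3
    refine ⟨Pool.Agent.V7H36.KL.kato_three A rfl hq hT h2 hs, fun α hα z hz => ?_⟩
    obtain ⟨y, hy, hyz⟩ := hs α hα z hz
    refine ⟨y, ⟨hy, hyz⟩, fun y' ⟨hy', hyz'⟩ => ?_⟩
    have h1 := Pool.Agent.V7H36.KL.inj_nonTate X hI h2 hα (Submodule.sub_mem _ hy' hy)
      (by rw [map_sub, hyz, hyz', sub_self])
    exact sub_eq_zero.1 h1
  · have h2' : IsDivisible X 2 := by
      intro α hα
      obtain ⟨k, hk, hk'⟩ := h2 α hα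
      have hq0 := hq.ne_zero
      refine IsIntegral.of_pow hk ?_
      rw [div_pow, hk', div_self (pow_ne_zero _ (by exact_mod_cast hq0))]
      exact isIntegral_one
    have hs := fun α hα z hz => surj_of_compare X X' rfl hq hI hI' hC0 hC1 R hR h2 h3 α hα z hz
    refine ⟨Pool.Agent.V7H36.KL.kato_three A rfl hq.two_le hT h2' hs, fun α hα z hz => ?_⟩
    obtain ⟨y, hy, hyz⟩ := hs α hα z hz
    refine ⟨y, ⟨hy, hyz⟩, fun y' ⟨hy', hyz'⟩ => ?_⟩
    have h1 := Pool.Agent.V7H36.KL.inj_nonTate X hI h2' hα (Submodule.sub_mem _ hy' hy)
      (by rw [map_sub, hyz, hyz', sub_self])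
    exact sub_eq_zero.1 h1

end Pool.Agent.Results.MP_f8720a_ag.DivisibleEigenvaluesH36
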