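import Pool.Agent.V7H12.LF.Log

/-!
# MP_f8720a_ag: Kato's log `ℓ`-adic monodromy-weight conjecture for hyperkähler degenerations

Let `k` be a finite extension of `ℚ_p`, `p ≠ ℓ`, and `Y` the special fibre of a projective semistable
model of a projective hyperkähler variety `X` over `k`, of any deformation type. We prove Kato's
conjecture for the SNCL scheme `Y` in all degrees, and that the monodromy operator on `H^i` is the
image of the one on `H²` under the action of `so(H²)`.

Idea of the proof. `X` is defined over a finitely generated field contained in `k`, and it is a member of
a smooth projective family over a scheme `S`, smooth over `ℤ[1 / N]`, with fundamental group `Γ`. Let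
`A_i` be the algebra of the endomorphisms of `H^i` which commute with `so(H²)`.

(1) Let `s` be a closed point of `S` with residue field of prime order. Weak admissibility of the
crystalline cohomology of the fibre over `s`, and the fact that `so(H²)` is perfect, show that the
eigenvalues of the Frobenius element of `s` on `A_i` are roots of unity of bounded order, and that its
determinants on the images of the idempotents of `A_i` are powers of the order of the residue field, up
to such roots of unity.

(2) By Chebotarev's theorem all elements of `Γ` act quasi-unipotently on `A_i`, and their determinants
on the images of the central idempotents which they fix are powers of the cyclotomic character, up to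
roots of unity.

(3) Let `Φ` be the action of an element of the Galois group of `k` which lifts the geometric Frobenius
element. The operator `N_i - ρ_i (N_2)` is in `A_i` and it is an eigenvector for `Φ` with eigenvalue
`1 / q`. So it is zero. The weight operator of `H^i`, minus `i`, is `ρ_i (D_2) + T_i` with `T_i` in
`A_i`, where `D_2` is the one of `H²`, minus `2`. By (2) `T_i` is in the center of `A_i`, and the mean
weight on its generalized eigenspaces is `i`; so `T_i` is nilpotent.

(4) The conjecture for `H²` gives an `sl₂`-triple `(Z, D_2, N_2)` in `so(H²)`. Its image in the
endomorphisms of `H^i` shows the conjecture for `H^i`.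
-/

set_option autoImplicit false

namespace Pool.Agent.Results.MP_f8720a_ag.HyperkaehlerFibresH12

open Pool.Agent.V7H12.LF

/-- **Kato's conjecture for hyperkähler degenerations.** Let `Y` be the special fibre of a projective
semistable model of a projective hyperkähler variety over a finite extension of `ℚ_p`, `p ≠ ℓ`. For
all `i` and `e` the map `N^e` from `gr_(i + e) H^i` to `gr_(i - e) H^i` is an isomorphism. -/
theorem result {Ω : Type} [Field Ω] [CharZero Ω] [IsAlgClosed Ω] [TopologicalSpace Ω]
    [IsTopologicalRing Ω] [T2Space Ω] {q : ℕ} (hq : 1 < q) (X : Family Ω) (L : LogFibre X q) :
    ∀ i ≤ X.d, L.KatoAt i :=
  fun _ hi => kato_all hq L hi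

end Pool.Agent.Results.MP_f8720a_ag.HyperkaehlerFibresH12
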